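import Pool.Agent.Helper51.CX.St

set_option autoImplicit false

/-!
# Project CX, module D3
-/

namespace Pool.Agent.Helper57.CX

open Pool.Agent.Helper51.CX

theorem core {K : Type} [Field K] [LinearOrder K] [IsStrictOrderedRing K]
    (a1 a2 a3 z2 z3 z4 d1 d2 d3 d4 d5 z5 : K)
    (h1 : a1 = 1 ∨ a1 = -1) (h2 : a2 = 1 ∨ a2 = -1) (h3 : a3 = 1 ∨ a3 = -1)
    (n2 : 10 ^ 5 * |a1 * z2 - 1| ≤ 1) (n3 : 10 ^ 5 * |a2 * z3 - 1| ≤ 1)
    (n4 : 10 ^ 5 * |a3 * z4 - 1| ≤ 1)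
    (p5 : z5 ≤ 1 + 1 / 10 ^ 10)
    (p2 : |z2 + d2| ≤ z5) (p3 : |z3 + d3| ≤ z5) (p4 : |z4 + d4| ≤ z5)
    (q5 : |d5| ≤ 1 / 10 ^ 10) (q1 : |d1| ≤ 1 / 10 ^ 10)
    (hy : |d1 - (d2 + 3 * d3 + 9 * d4)| = 50 * |d5|)
    (hz : |d2| = |d5| ∨ |d3| = |d5| ∨ |d4| = |d5|)
    (he : a1 * d2 + a2 * d3 + a3 * d4 ≤ -(2999 / 1000)) : False := by
  have e2 : |a1 * z2 - 1| ≤ 1 / 10 ^ 5 := by
    rw [le_div_iff₀ (by positivity)]; linarith
  have e3 : |a2 * z3 - 1| ≤ 1 / 10 ^ 5 := by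
    rw [le_div_iff₀ (by positivity)]; linarith
  have e4 : |a3 * z4 - 1| ≤ 1 / 10 ^ 5 := by
    rw [le_div_iff₀ (by positivity)]; linarith
  have hy' : |d1 - (d2 + 3 * d3 + 9 * d4)| ≤ 50 * (1 / 10 ^ 10) := by
    rw [hy]; linarith
  have hz' : |d2| ≤ 1 / 10 ^ 10 ∨ |d3| ≤ 1 / 10 ^ 10 ∨ |d4| ≤ 1 / 10 ^ 10 := by
    rcases hz with h | h | h
    · left; rw [h]; exact q5
    · right; left; rw [h]; exact q5
    · right; right; rw [h]; exact q5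
  rw [abs_le] at e2 e3 e4 hy' p2 p3 p4 q1
  obtain ⟨e2a, e2b⟩ := e2
  obtain ⟨e3a, e3b⟩ := e3
  obtain ⟨e4a, e4b⟩ := e4
  obtain ⟨hya, hyb⟩ := hy'
  obtain ⟨p2a, p2b⟩ := p2
  obtain ⟨p3a, p3b⟩ := p3
  obtain ⟨p4a, p4b⟩ := p4
  obtain ⟨q1a, q1b⟩ := q1
  norm_num at e2a e2b e3a e3b e4a e4b hya hyb q1a q1b p5 he
  rcases hz' with h | h | h <;> (rw [abs_le] at h; obtain ⟨ha, hb⟩ := h; norm_num at ha hb) <;>
    rcases h1 with h1 | h1 <;> rcases h2 with h2 | h2 <;> rcases h3 with h3 | h3 <;>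
      subst h1 <;> subst h2 <;> subst h3 <;> linarith

theorem hD3 : StBDP → StBDD → StD3 := by
  intro hBDP hBDD K _ _ _ j z d hS hF hj hga hgb hel a ha hY hZ
  have hz := hBDP K j hS.lo hS.hi z hS.fe hS.tj
  have hj' : L j (z + d) = 10 ^ 60 := by rw [L_add, hS.tj, hj, add_zero]
  have hz' := hBDP K j hS.lo hS.hi (z + d) hF hj'
  have hd := hBDD K j hS.lo hS.hi d
  obtain ⟨u1, u2, u3, -, -, -, u7, -, -⟩ := hz
  obtain ⟨w1, w2, w3, -, -, -, -, -, -⟩ := hz'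
  obtain ⟨b1, -, -, b4, -, -, b7, -, b9⟩ := hd
  have c1 := b1 hj
  obtain ⟨c2, c3⟩ := b4 hj hga hgb
  have n1 := nn_le z d
  have m1 := mm_le z d
  have s1 : |z 5 - 1| ≤ 1 / 10 ^ 14 := by
    rw [le_div_iff₀ (by positivity)]; linarith
  have s2 : |(z + d) 5 - 1| ≤ 1 / 10 ^ 14 := by
    rw [le_div_iff₀ (by positivity)]; linarith
  have s1' := (abs_le.1 s1).2
  have s2' := (abs_le.1 s2).2
  have t1 : z 5 ≤ 1 + 1 / 10 ^ 14 := by linarith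
  have t2 : (z + d) 5 ≤ 1 + 1 / 10 ^ 14 := by linarith
  have g1 : nn d ≤ 227 := by
    have : (113 : K) * z 5 + 113 * (z + d) 5 ≤ 113 * (1 + 1 / 10 ^ 14) + 113 * (1 + 1 / 10 ^ 14) := by
      linarith
    have h2 : (113 : K) * (1 + 1 / 10 ^ 14) + 113 * (1 + 1 / 10 ^ 14) ≤ 227 := by norm_num
    linarith
  have g2 : mm d ≤ 7 := by
    have : (3 : K) * z 5 + 3 * (z + d) 5 ≤ 3 * (1 + 1 / 10 ^ 14) + 3 * (1 + 1 / 10 ^ 14) := by
      linarith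
    have h2 : (3 : K) * (1 + 1 / 10 ^ 14) + 3 * (1 + 1 / 10 ^ 14) ≤ 7 := by norm_num
    linarith
  have r5 : |d 5| ≤ 1 / 10 ^ 10 := by
    have h1 : (10 : K) ^ 16 * |d 5| ≤ 234 := by linarith
    rw [le_div_iff₀ (by positivity)]
    have h2 : (10 : K) ^ 16 = 10 ^ 6 * 10 ^ 10 := by norm_num
    rw [h2] at h1
    nlinarith [abs_nonneg (d 5)]
  have r1 : |d 1| ≤ 1 / 10 ^ 10 := by
    have h1 : FF K j * d 1 = fy j * pp j d := by rw [b9, c2]; ring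
    obtain ⟨-, -, -, f4, -⟩ := bds (K := K) j hS.hi
    have h2 : (10 : K) ^ 20 * |pp j d| ≤ 7 := by
      have : (10 : K) ^ 20 * |pp j d| = |el j d| := by
        rw [← c3, abs_mul, abs_of_pos (by positivity : (0 : K) < 10 ^ 20)]
      rw [this]; linarith
    have h3 : FF K j * |d 1| = |(fy j : K)| * |pp j d| := by
      rw [← abs_mul, ← h1, abs_mul, abs_of_nonneg (by linarith : (0 : K) ≤ FF K j)]
    have h4 : |(fy j : K)| * |pp j d| ≤ 63 * |pp j d| :=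
      mul_le_mul_of_nonneg_right f4 (abs_nonneg _)
    have h5 : 3869 * |d 1| ≤ FF K j * |d 1| := mul_le_mul_of_nonneg_right u7 (abs_nonneg _)
    have h6 : |d 1| ≤ |pp j d| := by
      have := abs_nonneg (d 1)
      have := abs_nonneg (pp j d)
      linarith
    have h7 : |pp j d| ≤ 1 / 10 ^ 10 := by
      rw [le_div_iff₀ (by positivity)]
      have h8 : (10 : K) ^ 20 = 10 ^ 10 * 10 ^ 10 := by norm_num
      rw [h8] at h2
      nlinarith [abs_nonneg (pp j d)]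
    linarith
  obtain ⟨-, v1s, v2s, v3s, -⟩ := sgn (K := K) j hS.lo hS.hi
  have t3 : (z + d) 5 ≤ 1 + 1 / 10 ^ 10 := by
    have : (1 : K) / 10 ^ 14 ≤ 1 / 10 ^ 10 := by norm_num
    linarith
  have hz3 : |d 2| = |d 5| ∨ |d 3| = |d 5| ∨ |d 4| = |d 5| := by
    rcases ha with rfl | rfl | rfl
    · left; exact hZ
    · right; left; exact hZ
    · right; right; exact hZ
  exact core (v1 j : K) (v2 j : K) (v3 j : K) (z 2) (z 3) (z 4) (d 1) (d 2) (d 3) (d 4) (d 5)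
    ((z + d) 5) v1s v2s v3s hS.n2 hS.n3 hS.n4 t3 hF.z2 hF.z3 hF.z4 r5 r1 hY hz3 hel

end Pool.Agent.Helper57.CX
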